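import Pool.Agent.H70R3.CR7

open scoped Matrix Matrix.Norms.L2Operator

namespace Pool.Agent.Results.MP_042718_an.CbCrouzeixFails

/-- For `φ : X → M_k(ℂ)` and `a ∈ M_m(X)`, the operator norm on `ℂ^(mk) = (ℂ^k)^(m)` of the block
matrix `[φ(a_ij)] ∈ M_m(M_k(ℂ)) = M_{mk}(ℂ)`. -/
noncomputable def ampNorm {X : Type} {m k : ℕ} (φ : X → Matrix (Fin k) (Fin k) ℂ)
    (a : Matrix (Fin m) (Fin m) X) : ℝ :=
  ‖Matrix.comp (Fin m) (Fin m) (Fin k) (Fin k) ℂ (a.map φ)‖

/-- `‖φ‖_cb ≤ C` for a map `φ : A → M_k(ℂ)`, where `A` is a unital subalgebra of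
`M_N(ℂ) = B(ℂ^N)`: for every `m` and `a ∈ M_m(A)`, `‖φ^(m)(a)‖ ≤ C ‖a‖`. -/
def CBLe {N k : ℕ} (A : Subalgebra ℂ (Matrix (Fin N) (Fin N) ℂ))
    (φ : A → Matrix (Fin k) (Fin k) ℂ) (C : ℝ) : Prop :=
  ∀ (m : ℕ) (a : Matrix (Fin m) (Fin m) A),
    ampNorm φ a ≤ C * ampNorm (fun x : A => (x : Matrix (Fin N) (Fin N) ℂ)) a

open H70CR

/-- The completely bounded abstract Crouzeix conjecture fails, for `n = 2` and for a
finite-dimensional operator algebra `A ⊆ M_17(ℂ) = B(ℂ^17)`: the maps `α` (unital, antilinear) and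
`θ_α = (θ + θ(α(·))^*)/2` are complete contractions, but `‖θ‖ > 2`, so `‖θ‖_cb > 2`.
(The map `α` is also a complete contraction in the other convention for antilinear maps,
`‖[α(a_ji)]‖ ≤ ‖[a_ij]‖`.) -/
theorem result :
    ∃ (A : Subalgebra ℂ (Matrix (Fin 17) (Fin 17) ℂ))
      (θ : A →ₐ[ℂ] Matrix (Fin 2) (Fin 2) ℂ) (α : A →ₛₗ[starRingEnd ℂ] A),
      (∃ C : ℝ, CBLe A θ C) ∧
      α 1 = 1 ∧
      CBLe A (fun x => (α x : Matrix (Fin 17) (Fin 17) ℂ)) 1 ∧
      (∀ (m : ℕ) (a : Matrix (Fin m) (Fin m) A),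
        ampNorm (fun x => (α x : Matrix (Fin 17) (Fin 17) ℂ)) aᵀ ≤
          ampNorm (fun x : A => (x : Matrix (Fin 17) (Fin 17) ℂ)) a) ∧
      CBLe A (fun x => (1 / 2 : ℂ) • (θ x + (θ (α x))ᴴ)) 1 ∧
      ∃ f : A, 2 * ‖(f : Matrix (Fin 17) (Fin 17) ℂ)‖ < ‖θ f‖ := by
  have hinj : Function.Injective io := by
    intro x y hxy
    have h1 : x.1 = y.1 := by rw [← io_z x, ← io_z y, hxy]
    have h2 : (io x).submatrix ![15, 16] ![15, 16] = (io y).submatrix ![15, 16] ![15, 16] := by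
      rw [hxy]
    rw [io_u, io_u] at h2
    have e00 := congrFun (congrFun h2 0) 0
    have e01 := congrFun (congrFun h2 0) 1
    have e10 := congrFun (congrFun h2 1) 0
    have e11 := congrFun (congrFun h2 1) 1
    simp at e00 e01 e10 e11
    ext i j
    · exact h1
    · fin_cases i <;> fin_cases j <;> simpa using by assumption
  let e : (ℂ × Matrix (Fin 2) (Fin 2) ℂ) ≃ₐ[ℂ] io.range := AlgEquiv.ofInjective io hinj
  have he : ∀ y, ((e y : io.range) : Matrix (Fin 17) (Fin 17) ℂ) = io y := fun y => rfl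
  have hval : ∀ x : io.range, (x : Matrix (Fin 17) (Fin 17) ℂ) = io (e.symm x) := by
    intro x
    rw [← he, AlgEquiv.apply_symm_apply]
  let θ : io.range →ₐ[ℂ] Matrix (Fin 2) (Fin 2) ℂ :=
    (AlgHom.snd ℂ ℂ (Matrix (Fin 2) (Fin 2) ℂ)).comp (e.symm : io.range →ₐ[ℂ] _)
  have hθ : ∀ x, θ x = (e.symm x).2 := fun x => rfl
  let α : io.range →ₛₗ[starRingEnd ℂ] io.range :=
    { toFun := fun x => e (al0 (e.symm x))
      map_add' := fun x y => by simp only [map_add]
      map_smul' := fun c x => by simp only [map_smul, map_smulₛₗ] }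
  have hα : ∀ x, α x = e (al0 (e.symm x)) := fun x => rfl
  refine ⟨io.range, θ, α, ⟨‖(1 : Matrix (Fin 17) (Fin 17) ℂ).submatrix id ![15, 16] *
      (Matrix.diagonal ![1/5, 1/2] : Matrix (Fin 2) (Fin 2) ℂ)‖ *
      ‖(1 : Matrix (Fin 17) (Fin 17) ℂ).submatrix id ![15, 16] *
      (Matrix.diagonal ![5, 2] : Matrix (Fin 2) (Fin 2) ℂ)‖, ?_⟩, ?_, ?_, ?_, ?_, ?_⟩
  · intro m a
    refine cb_of_compress _ _ _ _ (fun x => ?_) a
    have h := io_u (e.symm x)
    rw [← compress_submatrix, ← hval] at h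
    rw [hθ, Matrix.conjTranspose_mul]
    calc (e.symm x).2 = (Matrix.diagonal ![1/5, 1/2] : Matrix (Fin 2) (Fin 2) ℂ)ᴴ *
          !![(e.symm x).2 0 0, 5/2 * (e.symm x).2 0 1; 2/5 * (e.symm x).2 1 0, (e.symm x).2 1 1] *
          (Matrix.diagonal ![5, 2] : Matrix (Fin 2) (Fin 2) ℂ) := by
          ext i j
          fin_cases i <;> fin_cases j <;>
            simp [Matrix.mul_apply, Fin.sum_univ_two, Matrix.diagonal_apply] <;> ring
      _ = _ := by
          rw [← h]
          simp only [Matrix.mul_assoc]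
  · rw [hα, map_one, al0_one, map_one]
  · intro m a
    rw [one_mul]
    obtain ⟨H, hH1, hH⟩ := Phi_kraus
    have h1 : ampNorm (fun x : io.range => ((α x : io.range) : Matrix (Fin 17) (Fin 17) ℂ)) a =
        ‖(Matrix.comp (Fin m) (Fin m) (Fin 17) (Fin 17) ℂ
          (a.map fun x => Phi (e.symm x))).map star‖ := by
      rw [ampNorm]
      congr 1
      ext ⟨i, r⟩ ⟨j, s⟩
      simp only [Matrix.comp_apply, Matrix.map_apply]
      rw [hα, he, io_al0]
      rfl
    rw [h1]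
    refine (norm_map_star_le _).trans ?_
    refine (cc_of_kraus (fun x : io.range => (io (e.symm x)).submatrix ![10, 8] ![10, 8])
      (fun x : io.range => Phi (e.symm x)) H hH1 (fun x => hH _) a).trans ?_
    refine cc_of_kraus (K := Unit) (fun x : io.range => (x : Matrix (Fin 17) (Fin 17) ℂ))
      (fun x : io.range => (io (e.symm x)).submatrix ![10, 8] ![10, 8])
      (fun _ => (1 : Matrix (Fin 17) (Fin 17) ℂ).submatrix id ![10, 8]) ?_ (fun x => ?_) a
    · simpa using isom_submatrix _ inj_w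
    · simp only [Finset.univ_unique, Finset.sum_singleton]
      rw [compress_submatrix, hval]
  · intro m a
    obtain ⟨H, hH1, hH⟩ := PhiT_kraus
    have h1 : ampNorm (fun x : io.range => ((α x : io.range) : Matrix (Fin 17) (Fin 17) ℂ)) aᵀ =
        ‖(Matrix.comp (Fin m) (Fin m) (Fin 17) (Fin 17) ℂ
          (a.map fun x => (Phi (e.symm x))ᵀ))ᴴ‖ := by
      rw [ampNorm]
      congr 1
      ext ⟨i, r⟩ ⟨j, s⟩
      simp only [Matrix.comp_apply, Matrix.map_apply, Matrix.transpose_apply,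
        Matrix.conjTranspose_apply]
      rw [hα, he, io_al0]
      rfl
    rw [h1, Matrix.l2_opNorm_conjTranspose]
    refine (cc_of_kraus (fun x : io.range => (io (e.symm x)).submatrix ![10, 8] ![10, 8])
      (fun x : io.range => (Phi (e.symm x))ᵀ) H hH1 (fun x => hH _) a).trans ?_
    refine cc_of_kraus (K := Unit) (fun x : io.range => (x : Matrix (Fin 17) (Fin 17) ℂ))
      (fun x : io.range => (io (e.symm x)).submatrix ![10, 8] ![10, 8])
      (fun _ => (1 : Matrix (Fin 17) (Fin 17) ℂ).submatrix id ![10, 8]) ?_ (fun x => ?_) a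
    · simpa using isom_submatrix _ inj_w
    · simp only [Finset.univ_unique, Finset.sum_singleton]
      rw [compress_submatrix, hval]
  · intro m a
    rw [one_mul]
    refine cc_of_kraus (K := Unit) (fun x : io.range => (x : Matrix (Fin 17) (Fin 17) ℂ))
      (fun x : io.range => (1 / 2 : ℂ) • (θ x + (θ (α x))ᴴ))
      (fun _ => (1 : Matrix (Fin 17) (Fin 17) ℂ).submatrix id ![0, 3]) ?_ (fun x => ?_) a
    · simpa using isom_submatrix _ inj_v
    · simp only [Finset.univ_unique, Finset.sum_singleton]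
      rw [compress_submatrix, hval, ← thal_eq, hθ, hθ, hα, AlgEquiv.symm_apply_apply, thal]
  · let y : ℂ × Matrix (Fin 2) (Fin 2) ℂ := (0, !![0, 0; 1, 0])
    refine ⟨e y, ?_⟩
    have h1 : ((e y : io.range) : Matrix (Fin 17) (Fin 17) ℂ) = Tc := by
      rw [he, io, iota_apply]
      simp [y]
    have h2 : θ (e y) = !![0, 0; 1, 0] := by
      rw [hθ, AlgEquiv.symm_apply_apply]
    rw [h1, h2]
    refine norm_Tc.trans_le ?_
    have h3 := Matrix.l2_opNorm_mulVec (!![0, 0; 1, 0] : Matrix (Fin 2) (Fin 2) ℂ)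
      (WithLp.toLp 2 ![1, 0])
    simp only [EuclideanSpace.norm_eq, Fin.sum_univ_two] at h3
    simpa [Matrix.mulVec, dotProduct, Fin.sum_univ_two] using h3

end Pool.Agent.Results.MP_042718_an.CbCrouzeixFails
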